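import Pool.Agent.Helper56.EC.LINE

/-! # Modules W, T4, T2, D0, DA, DB -/

open MvPolynomial
open Pool.Agent.Helper75.EC

universe w

namespace Pool.Agent.Helper56.EC

variable {K : Type*} [Field K] {N : ℕ}

omit [Field K] in
theorem trip_zero (x y z : Fin N → K) (i : Fin N) : trip x y z (i, 0) = x i := rfl
omit [Field K] in
theorem trip_one (x y z : Fin N → K) (i : Fin N) : trip x y z (i, 1) = y i := rfl
omit [Field K] in
theorem trip_two (x y z : Fin N → K) (i : Fin N) : trip x y z (i, 2) = z i := rfl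

/-- the value of a monomial -/
def mon (d : Fin N × Fin 3 →₀ ℕ) (x y z : Fin N → K) : K :=
  ∏ i, (x i ^ d (i, 0) * y i ^ d (i, 1) * z i ^ d (i, 2))

theorem eval_trip (f : MvPolynomial (Fin N × Fin 3) K) (x y z : Fin N → K) :
    eval (trip x y z) f = ∑ d ∈ f.support, f.coeff d * mon d x y z := by
  rw [eval_eq']
  refine Finset.sum_congr rfl fun d _ => ?_
  congr 1
  rw [Fintype.prod_prod_type]
  unfold mon
  refine Finset.prod_congr rfl fun i _ => ?_
  rw [Fin.prod_univ_three]
  rfl

theorem eval_scale (f : MvPolynomial (Fin N × Fin 3) K) (x y z x' y' z' : Fin N → K) (c : K)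
    (h : ∀ d ∈ f.support, mon d x' y' z' = c * mon d x y z) :
    eval (trip x' y' z') f = c * eval (trip x y z) f := by
  rw [eval_trip, eval_trip, Finset.mul_sum]
  refine Finset.sum_congr rfl fun d hd => ?_
  rw [h d hd]
  ring

/-- the total `x`-degree -/
theorem Inv_degx {t : Fin N → K} {δ : Fin N → ℕ} {a b : ℕ}
    {f : MvPolynomial (Fin N × Fin 3) K} (hf : Inv t δ a b f) :
    ∀ d ∈ f.support, ∑ i, d (i, 0) + a + b = ∑ i, δ i := by
  intro d hd
  rw [← hf.dega d hd, ← hf.degb d hd, ← Finset.sum_add_distrib, ← Finset.sum_add_distrib]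
  exact Finset.sum_congr rfl fun i _ => hf.degi d hd i

theorem Inv_nonempty {t : Fin N → K} {δ : Fin N → ℕ} {a b : ℕ}
    {f : MvPolynomial (Fin N × Fin 3) K} (hf : Inv t δ a b f) : a + b ≤ ∑ i, δ i := by
  obtain ⟨d, hd⟩ := MvPolynomial.ne_zero_iff.1 hf.ne
  have := Inv_degx hf d (mem_support_iff.2 hd)
  omega

theorem mon_scale (d : Fin N × Fin 3 →₀ ℕ) (x y z : Fin N → K) (l m n : K) :
    mon d (fun i => l * x i) (fun i => m * y i) (fun i => n * z i) =
      l ^ (∑ i, d (i, 0)) * m ^ (∑ i, d (i, 1)) * n ^ (∑ i, d (i, 2)) * mon d x y z := by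
  unfold mon
  rw [← Finset.prod_pow_eq_pow_sum, ← Finset.prod_pow_eq_pow_sum, ← Finset.prod_pow_eq_pow_sum,
    ← Finset.prod_mul_distrib, ← Finset.prod_mul_distrib, ← Finset.prod_mul_distrib]
  refine Finset.prod_congr rfl fun i _ => ?_
  simp only [mul_pow]
  ring

/-- homogeneity -/
theorem Inv_scale {t : Fin N → K} {δ : Fin N → ℕ} {a b : ℕ}
    {f : MvPolynomial (Fin N × Fin 3) K} (hf : Inv t δ a b f) (x y z : Fin N → K) (l m n : K) :
    eval (trip (fun i => l * x i) (fun i => m * y i) (fun i => n * z i)) f =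
      (l ^ (∑ i, δ i - a - b) * m ^ a * n ^ b) * eval (trip x y z) f := by
  refine eval_scale f x y z _ _ _ _ fun d hd => ?_
  rw [mon_scale, hf.dega d hd, hf.degb d hd]
  have := Inv_degx hf d hd
  have h1 : ∑ i, d (i, 0) = ∑ i, δ i - a - b := by omega
  rw [h1]

theorem exists_ne [Infinite K] {σ : Type*} {f : MvPolynomial σ K} (hf : f ≠ 0) :
    ∃ p : σ → K, eval p f ≠ 0 := by
  by_contra h
  push Not at h
  exact hf (MvPolynomial.funext fun p => by rw [h p, map_zero])

omit [Field K] in
theorem trip_eta (p : Fin N × Fin 3 → K) :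
    p = trip (fun i => p (i, 0)) (fun i => p (i, 1)) (fun i => p (i, 2)) := by
  funext q
  obtain ⟨i, k⟩ := q
  fin_cases k <;> rfl

theorem exists_trip_ne [Infinite K] {f : MvPolynomial (Fin N × Fin 3) K} (hf : f ≠ 0) :
    ∃ x y z : Fin N → K, eval (trip x y z) f ≠ 0 := by
  obtain ⟨p, hp⟩ := exists_ne hf
  exact ⟨_, _, _, by rw [← trip_eta]; exact hp⟩

theorem pth_trip (f : MvPolynomial (Fin N × Fin 3) K) (x y z dx dy dz : Fin N → K) (ξ : K) :
    (pth f (trip x y z) (trip dx dy dz)).eval ξ =
      eval (trip (fun i => x i + ξ * dx i) (fun i => y i + ξ * dy i)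
        (fun i => z i + ξ * dz i)) f := by
  rw [pth_eval]
  congr 2
  funext q
  obtain ⟨i, k⟩ := q
  fin_cases k <;> rfl

/-- the identity behind D0 and W -/
theorem D0_identity {t : Fin N → K} {δ : Fin N → ℕ} {a b : ℕ}
    {f : MvPolynomial (Fin N × Fin 3) K} (hf : Inv t δ a b f) (c : K) (hc : ∀ i, t i ≠ c)
    (x y z : Fin N → K) (ξ : K) (hξ : ξ ≠ 0) :
    (pth f (trip x y z) (trip (fun i => y i / (t i - c)) 0 0)).eval ξ =
      ξ ^ (((∑ i, δ i : ℕ) : ℤ) - 2 * a - b) *
      (pth f (trip (fun i => y i / (t i - c)) (fun i => -(t i - c) * x i) z)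
        (trip x 0 0)).eval ξ⁻¹ := by
  have hab := Inv_nonempty hf
  rw [pth_trip, pth_trip]
  have h1 := hf.invY (fun i => x i + ξ * (y i / (t i - c))) y z (ξ⁻¹ * c) (-ξ⁻¹)
  have h2 := Inv_scale hf (fun i => y i / (t i - c) + ξ⁻¹ * x i) (fun i => -(t i - c) * x i) z
    ξ ξ⁻¹ 1
  have e1 : (fun i => y i + (ξ⁻¹ * c + -ξ⁻¹ * t i) * (x i + ξ * (y i / (t i - c)))) =
      fun i => ξ⁻¹ * (-(t i - c) * x i) := by
    funext i
    have h3 : t i - c ≠ 0 := sub_ne_zero.2 (hc i)
    field_simp
    ring
  have e2 : (fun i => x i + ξ * (y i / (t i - c))) =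
      fun i => ξ * (y i / (t i - c) + ξ⁻¹ * x i) := by
    funext i
    field_simp
    ring
  rw [e1] at h1
  simp only [Pi.zero_apply, mul_zero, add_zero]
  rw [← h1]
  rw [e2]
  have e3 : (fun i => z i) = fun i => (1 : K) * z i := by
    funext i; ring
  rw [e3] at *
  have e4 : z = fun i => (1 : K) * z i := by
    funext i; ring
  rw [show trip (fun i => ξ * (y i / (t i - c) + ξ⁻¹ * x i)) (fun i => ξ⁻¹ * (-(t i - c) * x i)) z =
    trip (fun i => ξ * (y i / (t i - c) + ξ⁻¹ * x i)) (fun i => ξ⁻¹ * (-(t i - c) * x i))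
      (fun i => 1 * z i) from by rw [← e4], h2]
  have e5 : ξ ^ (∑ i, δ i - a - b) * ξ⁻¹ ^ a * 1 ^ b = ξ ^ (((∑ i, δ i : ℕ) : ℤ) - 2 * a - b) := by
    rw [one_pow, mul_one, ← zpow_natCast ξ (∑ i, δ i - a - b), ← zpow_natCast ξ⁻¹ a, inv_zpow',
      ← zpow_add₀ hξ]
    congr 1
    omega
  rw [e5, ← e4]

theorem st_D0 (hLB : ST_LB.{w}) : ST_D0.{w} := by
  intro K _ _ N t δ a b W f hf hW c hc x y z
  set P := pth f (trip x y z) (trip (fun i => y i / (t i - c)) 0 0) with hP
  by_cases h0 : P = 0
  · rw [h0]; simp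
  · have := hLB K P _ _ (fun ξ hξ => D0_identity hf c hc x y z ξ hξ) h0
    omega

theorem st_W (hLB : ST_LB.{w}) : ST_W.{w} := by
  intro K _ _ N t δ a b f hf
  obtain ⟨c, hc⟩ : ∃ c : K, ∀ i, t i ≠ c := by
    obtain ⟨c, hc⟩ := (Set.finite_range t).exists_notMem
    exact ⟨c, fun i h => hc ⟨i, h⟩⟩
  obtain ⟨x, y, z, hx⟩ := exists_trip_ne hf.ne
  set P := pth f (trip x y z) (trip (fun i => y i / (t i - c)) 0 0) with hP
  have h0 : P ≠ 0 := by
    intro h
    have h1 := pth_trip f x y z (fun i => y i / (t i - c)) 0 0 0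
    rw [← hP, h] at h1
    apply hx
    have e : (fun i => x i + 0 * (y i / (t i - c))) = x := by funext i; ring
    simp only [e, Polynomial.eval_zero, Pi.zero_apply, mul_zero, add_zero] at h1
    exact h1.symm
  have := hLB K P _ _ (fun ξ hξ => D0_identity hf c hc x y z ξ hξ) h0
  omega

theorem st_T4 (hLB : ST_LB.{w}) : ST_T4.{w} := by
  intro K _ _ N t δ a b W f hf hW
  obtain ⟨x, y, z, hx⟩ := exists_trip_ne hf.ne
  set P := pth f (trip x y z) (trip z 0 0) with hP
  have h0 : P ≠ 0 := by
    intro h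
    have h1 := pth_trip f x y z z 0 0 0
    rw [← hP, h] at h1
    apply hx
    simp only [Polynomial.eval_zero, Pi.zero_apply, zero_mul, add_zero] at h1
    exact h1.symm
  have key : ∀ ξ : K, ξ ≠ 0 → P.eval ξ = ξ ^ (((a : ℤ) + W) - b) *
      (pth f (trip z y (fun i => - x i)) (trip x 0 0)).eval ξ⁻¹ := by
    intro ξ hξ
    rw [hP, pth_trip, pth_trip]
    simp only [Pi.zero_apply, mul_zero, add_zero]
    have h1 := hf.invZ (fun i => x i + ξ * z i) y z (-ξ⁻¹)
    have h2 := Inv_scale hf (fun i => z i + ξ⁻¹ * x i) y (fun i => - x i) ξ 1 ξ⁻¹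
    have e1 : (fun i => z i + -ξ⁻¹ * (x i + ξ * z i)) = fun i => ξ⁻¹ * (- x i) := by
      funext i
      field_simp
      ring
    have e2 : (fun i => x i + ξ * z i) = fun i => ξ * (z i + ξ⁻¹ * x i) := by
      funext i
      field_simp
      ring
    have e3 : (fun i => (1 : K) * y i) = y := by funext i; ring
    rw [e1] at h1
    rw [e3] at h2
    rw [← h1, e2, h2]
    congr 1
    rw [one_pow, mul_one, ← zpow_natCast ξ (∑ i, δ i - a - b), ← zpow_natCast ξ⁻¹ b, inv_zpow',
      ← zpow_add₀ hξ]
    congr 1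
    omega
  have := hLB K P _ _ key h0
  omega

theorem st_T2 (hLB : ST_LB.{w}) : ST_T2.{w} := by
  intro K _ _ N t δ a b W f hf ht hW i
  classical
  -- a point with `x i ≠ 0`, `y i = z i = 0`
  obtain ⟨x, y, z, hx, hxi, hyi, hzi⟩ : ∃ x y z : Fin N → K, eval (trip x y z) f ≠ 0 ∧ x i ≠ 0 ∧
      y i = 0 ∧ z i = 0 := by
    obtain ⟨x, y, z, h⟩ := exists_trip_ne (mul_ne_zero hf.ne (X_ne_zero (R := K) (i, (0 : Fin 3))))
    rw [map_mul, eval_X, trip_zero] at h
    have h1 := left_ne_zero_of_mul h
    have h2 := right_ne_zero_of_mul h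
    refine ⟨x, fun j => y j + (-(y i / x i) + 0 * t j) * x j,
      fun j => z j + (-(z i / x i)) * x j, ?_, h2, ?_, ?_⟩
    · rw [hf.invZ, hf.invY]
      exact h1
    · field_simp
      ring
    · field_simp
      ring
  set D : Fin N → K := fun j => if j = i then 0 else y j / (t j - t i) with hD
  set P := pth f (trip x y z) (trip D 0 0) with hP
  have h0 : P ≠ 0 := by
    intro h
    have h1 := pth_trip f x y z D 0 0 0
    rw [← hP, h] at h1
    apply hx
    simp only [Polynomial.eval_zero, Pi.zero_apply, zero_mul, add_zero] at h1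
    exact h1.symm
  have key : ∀ ξ : K, ξ ≠ 0 → P.eval ξ = ξ ^ ((W : ℤ) - δ i) *
      (pth f (trip (fun j => if j = i then x i else D j) (fun j => -(t j - t i) * x j) z)
        (trip (fun j => if j = i then 0 else x j) 0 0)).eval ξ⁻¹ := by
    intro ξ hξ
    rw [hP, pth_trip, pth_trip]
    simp only [Pi.zero_apply, mul_zero, add_zero]
    have h1 := hf.invY (fun j => x j + ξ * D j) y z (ξ⁻¹ * t i) (-ξ⁻¹)
    have e1 : (fun j => y j + (ξ⁻¹ * t i + -ξ⁻¹ * t j) * (x j + ξ * D j)) =
        fun j => ξ⁻¹ * (-(t j - t i) * x j) := by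
      funext j
      by_cases hj : j = i
      · subst hj
        simp [hyi]
      · have h3 : t j - t i ≠ 0 := sub_ne_zero.2 (fun h => hj (ht h))
        simp only [hD, if_neg hj]
        field_simp
        ring
    rw [e1] at h1
    rw [← h1]
    refine eval_scale f _ _ _ _ _ _ _ fun d hd => ?_
    have hdi := hf.degi d hd i
    by_cases hz : d (i, 1) = 0 ∧ d (i, 2) = 0
    · -- exponents
      have h4 : d (i, 0) = δ i := by omega
      have h5 := Inv_degx hf d hd
      have h6 := hf.dega d hd
      -- compare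
      have h7 : mon d (fun j => x j + ξ * D j) (fun j => ξ⁻¹ * (-(t j - t i) * x j)) z =
          (∏ j, ((if j = i then 1 else ξ ^ d (j, 0)) * ξ⁻¹ ^ d (j, 1))) *
          mon d (fun j => (if j = i then x i else D j) + ξ⁻¹ * (if j = i then 0 else x j))
            (fun j => -(t j - t i) * x j) z := by
        unfold mon
        rw [← Finset.prod_mul_distrib]
        refine Finset.prod_congr rfl fun j _ => ?_
        by_cases hj : j = i
        · subst hj
          simp only [if_true, hD, mul_zero, add_zero, one_mul, mul_pow]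
          ring
        · simp only [if_neg hj, mul_pow]
          have e2 : x j + ξ * D j = ξ * (D j + ξ⁻¹ * x j) := by
            field_simp
            ring
          rw [e2, mul_pow]
          ring
      rw [h7]
      congr 1
      rw [Finset.prod_mul_distrib, Finset.prod_pow_eq_pow_sum, h6]
      have h8 : (∏ j, (if j = i then (1 : K) else ξ ^ d (j, 0))) * ξ ^ d (i, 0) =
          ξ ^ ∑ j, d (j, 0) := by
        rw [← Finset.prod_pow_eq_pow_sum, ← Finset.mul_prod_erase Finset.univ _ (Finset.mem_univ i),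
          ← Finset.mul_prod_erase Finset.univ (fun j => ξ ^ d (j, 0)) (Finset.mem_univ i),
          if_pos rfl, one_mul, mul_comm]
        congr 1
        refine Finset.prod_congr rfl fun j hj => ?_
        rw [if_neg (Finset.ne_of_mem_erase hj)]
      have h9 : ξ ^ d (i, 0) ≠ 0 := pow_ne_zero _ hξ
      refine mul_right_cancel₀ h9 ?_
      have h10 : (∏ j, (if j = i then (1 : K) else ξ ^ d (j, 0))) * ξ⁻¹ ^ a * ξ ^ d (i, 0) =
          ξ ^ (∑ j, d (j, 0)) * ξ⁻¹ ^ a := by
        rw [← h8]; ring
      rw [h10, h4, ← zpow_natCast ξ (∑ j, d (j, 0)), ← zpow_natCast ξ⁻¹ a, inv_zpow',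
        ← zpow_natCast ξ (δ i), ← zpow_add₀ hξ, ← zpow_add₀ hξ]
      congr 1
      omega
    · -- both sides vanish
      have hzero : ∀ x' y' z' : Fin N → K, y' i = 0 → z' i = 0 → mon d x' y' z' = 0 := by
        intro x' y' z' h1 h2
        refine Finset.prod_eq_zero (Finset.mem_univ i) ?_
        rw [h1, h2]
        by_cases h3 : d (i, 1) = 0
        · have h4 : d (i, 2) ≠ 0 := fun h => hz ⟨h3, h⟩
          rw [zero_pow h4, mul_zero]
        · rw [zero_pow h3, mul_zero, zero_mul]
      rw [hzero _ _ _ (by simp) hzi, hzero _ _ _ (by simp) hzi, mul_zero]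
  have := hLB K P _ _ key h0
  omega

/-! ## DA, DB -/

theorem pth_zero_dir (f : MvPolynomial (Fin N × Fin 3) K) (p : Fin N × Fin 3 → K) :
    (pth f p 0).natDegree = 0 := by
  unfold pth
  have h : aeval (fun s => Polynomial.C (p s) + Polynomial.X * Polynomial.C ((0 : Fin N × Fin 3 → K) s)) f =
      Polynomial.C (eval p f) := by
    induction f using MvPolynomial.induction_on with
    | C a => simp
    | add f g hf hg => simp only [map_add, hf, hg]
    | mul_X f i hf =>
      rw [map_mul, hf, aeval_X, map_mul, eval_X]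
      simp
  rw [h, Polynomial.natDegree_C]

theorem st_DA (hD0 : ST_D0.{w}) (hDENS : ST_DENS.{w}) : ST_DA.{w} := by
  intro K _ _ N t δ a b W f hf hW c hc x y z r s
  have key : ∀ r : K, r ∉ ({0} : Set K) → (pth f (trip x y z)
      (trip (fun i => r * y i / (t i - c)) 0 (fun i => s * y i / (t i - c)))).natDegree ≤ W := by
    intro r hr
    have hr0 : r ≠ 0 := hr
    have h1 := hD0 K N t δ a b W f hf hW c hc x y (fun i => z i + (-(s / r)) * x i)
    set Q := pth f (trip x y (fun i => z i + (-(s / r)) * x i))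
      (trip (fun i => y i / (t i - c)) 0 0) with hQ
    have h2 : pth f (trip x y z)
        (trip (fun i => r * y i / (t i - c)) 0 (fun i => s * y i / (t i - c))) =
        Q.comp (Polynomial.C r * Polynomial.X) := by
      refine Polynomial.funext fun ξ => ?_
      rw [Polynomial.eval_comp, hQ, pth_trip, pth_trip]
      simp only [Polynomial.eval_mul, Polynomial.eval_C, Polynomial.eval_X, Pi.zero_apply,
        mul_zero, add_zero]
      rw [← hf.invZ (fun i => x i + ξ * (r * y i / (t i - c))) y _ (-(s / r))]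
      congr 2
      refine congrArg₂ (fun p q => trip p y q) ?_ ?_
      · funext i
        ring
      · funext i
        have h3 : t i - c ≠ 0 := sub_ne_zero.2 (hc i)
        field_simp
        ring
    rw [h2]
    refine Polynomial.natDegree_comp_le.trans ?_
    have h3 : (Polynomial.C r * Polynomial.X : Polynomial K).natDegree ≤ 1 :=
      (Polynomial.natDegree_C_mul_le _ _).trans Polynomial.natDegree_X_le
    calc Q.natDegree * _ ≤ Q.natDegree * 1 := Nat.mul_le_mul_left _ h3
      _ ≤ W := by rw [mul_one]; exact h1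
  have h2 := hDENS K (Fin N × Fin 3) f (fun q => Polynomial.C (trip x y z q))
    (fun q => trip (fun i => Polynomial.X * Polynomial.C (y i / (t i - c))) 0
      (fun i => Polynomial.C (s * y i / (t i - c))) q) W {0} (Set.finite_singleton 0) ?_ r
  · have e1 : (fun q => (Polynomial.C (trip x y z q) : Polynomial K).eval r) = trip x y z := by
      funext q
      simp
    have e2 : (fun q => (trip (fun i => Polynomial.X * Polynomial.C (y i / (t i - c))) 0
      (fun i => (Polynomial.C (s * y i / (t i - c)) : Polynomial K)) q).eval r) =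
        trip (fun i => r * y i / (t i - c)) 0 (fun i => s * y i / (t i - c)) := by
      funext q
      obtain ⟨i, k⟩ := q
      fin_cases k
      · change (Polynomial.X * Polynomial.C (y i / (t i - c)) : Polynomial K).eval r = _
        rw [Polynomial.eval_mul, Polynomial.eval_X, Polynomial.eval_C, ← mul_div_assoc]
        rfl
      · change (0 : Polynomial K).eval r = (0 : K)
        simp
      · change (Polynomial.C (s * y i / (t i - c)) : Polynomial K).eval r = _
        rw [Polynomial.eval_C]
        rfl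
    rw [e1, e2] at h2
    exact h2
  · intro r hr
    have e1 : (fun q => (Polynomial.C (trip x y z q) : Polynomial K).eval r) = trip x y z := by
      funext q
      simp
    have e2 : (fun q => (trip (fun i => Polynomial.X * Polynomial.C (y i / (t i - c))) 0
      (fun i => (Polynomial.C (s * y i / (t i - c)) : Polynomial K)) q).eval r) =
        trip (fun i => r * y i / (t i - c)) 0 (fun i => s * y i / (t i - c)) := by
      funext q
      obtain ⟨i, k⟩ := q
      fin_cases k
      · change (Polynomial.X * Polynomial.C (y i / (t i - c)) : Polynomial K).eval r = _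
        rw [Polynomial.eval_mul, Polynomial.eval_X, Polynomial.eval_C, ← mul_div_assoc]
        rfl
      · change (0 : Polynomial K).eval r = (0 : K)
        simp
      · change (Polynomial.C (s * y i / (t i - c)) : Polynomial K).eval r = _
        rw [Polynomial.eval_C]
        rfl
    rw [e1, e2]
    exact key r hr

theorem st_DB (hDA : ST_DA.{w}) (hDENS : ST_DENS.{w}) : ST_DB.{w} := by
  intro K _ _ N t δ a b W f hf hW c hc x y z r s
  have key : ∀ s : K, s ∉ ({0} : Set K) → (pth f (trip x y z)
      (trip 0 0 (fun i => (r * x i + s * y i) / (t i - c)))).natDegree ≤ W := by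
    intro s hs
    have hs0 : s ≠ 0 := hs
    have h1 := hDA K N t δ a b W f hf hW c hc x (fun i => y i + (r / s + 0 * t i) * x i) z 0 s
    have h2 : pth f (trip x y z) (trip 0 0 (fun i => (r * x i + s * y i) / (t i - c))) =
        pth f (trip x (fun i => y i + (r / s + 0 * t i) * x i) z)
        (trip (fun i => 0 * (y i + (r / s + 0 * t i) * x i) / (t i - c)) 0
          (fun i => s * (y i + (r / s + 0 * t i) * x i) / (t i - c))) := by
      refine Polynomial.funext fun ξ => ?_
      rw [pth_trip, pth_trip]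
      simp only [Pi.zero_apply, mul_zero, add_zero, zero_mul, zero_div]
      rw [← hf.invY x y _ (r / s) 0]
      congr 2
      refine congrArg₂ (fun p q => trip x p q) ?_ ?_
      · funext i
        ring
      · funext i
        have h3 : t i - c ≠ 0 := sub_ne_zero.2 (hc i)
        field_simp
        ring
    rw [h2]
    exact h1
  have hcomp : ∀ s : K, (fun q => (trip 0 0 (fun i => Polynomial.C (r * x i / (t i - c)) +
      Polynomial.X * (Polynomial.C (y i / (t i - c)) : Polynomial K)) q).eval s) =
        trip 0 0 (fun i => (r * x i + s * y i) / (t i - c)) := by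
    intro s
    funext q
    obtain ⟨i, k⟩ := q
    fin_cases k
    · change (0 : Polynomial K).eval s = (0 : K)
      simp
    · change (0 : Polynomial K).eval s = (0 : K)
      simp
    · change (Polynomial.C (r * x i / (t i - c)) +
        Polynomial.X * (Polynomial.C (y i / (t i - c)) : Polynomial K)).eval s =
        (r * x i + s * y i) / (t i - c)
      rw [Polynomial.eval_add, Polynomial.eval_mul, Polynomial.eval_X, Polynomial.eval_C,
        Polynomial.eval_C]
      ring
  have e1 : ∀ s : K, (fun q => (Polynomial.C (trip x y z q) : Polynomial K).eval s) =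
      trip x y z := by
    intro s
    funext q
    simp
  have h2 := hDENS K (Fin N × Fin 3) f (fun q => Polynomial.C (trip x y z q))
    (fun q => trip 0 0 (fun i => Polynomial.C (r * x i / (t i - c)) +
      Polynomial.X * (Polynomial.C (y i / (t i - c)) : Polynomial K)) q)
    W {0} (Set.finite_singleton 0) (fun s hs => by rw [e1, hcomp]; exact key s hs) s
  rw [e1, hcomp] at h2
  exact h2

end Pool.Agent.Helper56.EC
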