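import Pool.Agent.Helper75.EC.Stmts

/-! # Modules LB, DIAG, DENS -/

open MvPolynomial
open Pool.Agent.Helper75.EC

universe w

namespace Pool.Agent.Helper56.EC

variable {K : Type*} [Field K] {σ : Type*}

theorem pth_eval (f : MvPolynomial σ K) (p d : σ → K) (ξ : K) :
    (pth f p d).eval ξ = eval (fun s => p s + ξ * d s) f := by
  unfold pth
  induction f using MvPolynomial.induction_on with
  | C a => simp
  | add f g hf hg => simp only [map_add, Polynomial.eval_add, hf, hg]
  | mul_X f i hf => simp only [map_mul, Polynomial.eval_mul, hf, aeval_X, Polynomial.eval_add,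
      Polynomial.eval_C, Polynomial.eval_X, eval_X]

/-- two polynomials which agree at all non-zero points -/
theorem poly_ext_ne [Infinite K] {P Q : Polynomial K} (h : ∀ ξ : K, ξ ≠ 0 → P.eval ξ = Q.eval ξ) :
    P = Q := by
  have h1 : Polynomial.X * P = Polynomial.X * Q := by
    refine Polynomial.funext fun ξ => ?_
    by_cases h0 : ξ = 0
    · simp [h0]
    · simp [h ξ h0]
  exact mul_left_cancel₀ Polynomial.X_ne_zero h1

theorem st_LB : ST_LB.{w} := by
  intro K _ _ P Q e h hP
  set M := Q.natDegree with hM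
  set Q' := Polynomial.reflect M Q with hQ'
  have h1 : ∀ ξ : K, ξ ≠ 0 → Q.eval ξ⁻¹ * ξ ^ M = Q'.eval ξ := by
    intro ξ h0
    let _ : Invertible ξ⁻¹ := invertibleOfNonzero (inv_ne_zero h0)
    have h2 := Polynomial.eval₂_reflect_mul_pow (RingHom.id K) ξ⁻¹ M Q (le_of_eq hM.symm)
    have h3 : (⅟ξ⁻¹ : K) = ξ := by rw [invOf_eq_inv, inv_inv]
    rw [h3] at h2
    have h4 : Q'.eval ξ * ξ⁻¹ ^ M = Q.eval ξ⁻¹ := by
      rw [Polynomial.eval, Polynomial.eval]
      exact h2
    rw [← h4, mul_assoc, ← mul_pow, inv_mul_cancel₀ h0, one_pow, mul_one]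
  have hdeg : Q'.natDegree ≤ M := by
    have := Polynomial.natDegree_reflect_le (N := M) (p := Q)
    rwa [← hM, max_self] at this
  have h5 : ∀ ξ : K, ξ ≠ 0 → P.eval ξ * ξ ^ M = ξ ^ e * Q'.eval ξ := by
    intro ξ h0
    rw [h ξ h0, mul_assoc, h1 ξ h0]
  rcases le_total (M : ℤ) e with he | he
  · obtain ⟨k, hk⟩ := Int.eq_ofNat_of_zero_le (sub_nonneg.2 he)
    have h6 : P = Polynomial.X ^ k * Q' := by
      refine poly_ext_ne fun ξ h0 => ?_
      have h7 := h5 ξ h0
      have h8 : e = (k : ℤ) + (M : ℤ) := by
        have : e - M = k := hk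
        omega
      rw [h8, zpow_add₀ h0, zpow_natCast, zpow_natCast] at h7
      have h9 : ξ ^ M ≠ 0 := pow_ne_zero M h0
      have h10 : P.eval ξ * ξ ^ M = (ξ ^ k * Q'.eval ξ) * ξ ^ M := by rw [h7]; ring
      rw [mul_right_cancel₀ h9 h10]
      simp
    have h7 : P.natDegree ≤ k + M := by
      rw [h6]
      refine Polynomial.natDegree_mul_le.trans ?_
      rw [Polynomial.natDegree_X_pow]
      omega
    have : e - M = k := hk
    omega
  · obtain ⟨k, hk⟩ := Int.eq_ofNat_of_zero_le (sub_nonneg.2 he)
    have h6 : Polynomial.X ^ k * P = Q' := by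
      refine poly_ext_ne fun ξ h0 => ?_
      have h7 := h5 ξ h0
      have h8 : (M : ℤ) = (k : ℤ) + e := by
        have : (M : ℤ) - e = k := hk
        omega
      have h9 : ξ ^ M = ξ ^ k * ξ ^ e := by
        rw [← zpow_natCast ξ M, h8, zpow_add₀ h0, zpow_natCast]
      have h10 : ξ ^ e ≠ 0 := zpow_ne_zero e h0
      have h11 : (ξ ^ k * P.eval ξ) * ξ ^ e = Q'.eval ξ * ξ ^ e := by
        rw [mul_comm (Q'.eval ξ), ← h7, h9]; ring
      rw [← mul_right_cancel₀ h10 h11]
      simp
    have h7 : k + P.natDegree ≤ M := by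
      have h12 := Polynomial.natDegree_mul (pow_ne_zero k (Polynomial.X_ne_zero (R := K))) hP
      rw [h6, Polynomial.natDegree_X_pow] at h12
      omega
    have : (M : ℤ) - e = k := hk
    omega

theorem st_DIAG : ST_DIAG.{w} := by
  intro K _ _ σ f p d d' w1 w2 h1 h2
  classical
  set v : ℕ → K := fun k => Infinite.natEmbedding K k with hv
  have hinj : Function.Injective v := (Infinite.natEmbedding K).injective
  set s := Finset.range (w1 + 1) with hs
  have key : pth f p (fun s => d s + d' s) =
      ∑ k ∈ s, Lagrange.basis s v k * pth f (fun s => p s + v k * d s) d' := by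
    refine Polynomial.funext fun ξ => ?_
    rw [pth_eval, Polynomial.eval_finsetSum]
    have h3 : eval (fun s => p s + ξ * (d s + d' s)) f =
        (pth f (fun s => p s + ξ * d' s) d).eval ξ := by
      rw [pth_eval]
      congr 2
      funext s
      ring
    rw [h3]
    have h4 : (pth f (fun s => p s + ξ * d' s) d).degree < (s.card : WithBot ℕ) := by
      rw [hs, Finset.card_range]
      refine lt_of_le_of_lt Polynomial.degree_le_natDegree ?_
      exact_mod_cast Nat.lt_succ_of_le (h1 ξ)
    have h5 := Lagrange.eq_interpolate (v := v) hinj.injOn h4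
    rw [h5, Lagrange.interpolate_apply, Polynomial.eval_finsetSum]
    refine Finset.sum_congr rfl fun k _ => ?_
    rw [Polynomial.eval_mul, Polynomial.eval_mul, Polynomial.eval_C, pth_eval, pth_eval, mul_comm]
    congr 3
    funext s
    ring
  rw [key]
  refine Polynomial.natDegree_sum_le_of_forall_le s _ fun k hk => ?_
  refine Polynomial.natDegree_mul_le.trans (add_le_add ?_ (h2 (v k)))
  rw [Lagrange.natDegree_basis hinj.injOn hk, hs, Finset.card_range]
  omega

theorem map_pth (f : MvPolynomial σ K) (p d : σ → Polynomial K) (ε : K) :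
    (aeval (fun s => Polynomial.C (p s) + Polynomial.X * Polynomial.C (d s)) f :
      Polynomial (Polynomial K)).map (Polynomial.evalRingHom ε) =
      pth f (fun s => (p s).eval ε) (fun s => (d s).eval ε) := by
  unfold pth
  induction f using MvPolynomial.induction_on with
  | C a =>
    simp only [algHom_C, Polynomial.algebraMap_apply, Polynomial.map_C]
    simp
  | add f g hf hg => simp only [map_add, Polynomial.map_add, hf, hg]
  | mul_X f i hf =>
    simp only [map_mul, Polynomial.map_mul, hf, aeval_X, Polynomial.map_add, Polynomial.map_C,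
      Polynomial.map_X, Polynomial.coe_evalRingHom]

theorem st_DENS : ST_DENS.{w} := by
  intro K _ _ σ f p d W S hS h ε
  set G : Polynomial (Polynomial K) :=
    aeval (fun s => Polynomial.C (p s) + Polynomial.X * Polynomial.C (d s)) f with hG
  have h1 : ∀ ε : K, G.map (Polynomial.evalRingHom ε) =
      pth f (fun s => (p s).eval ε) (fun s => (d s).eval ε) := by
    intro ε
    exact map_pth f p d ε
  have h2 : ∀ k, W < k → G.coeff k = 0 := by
    intro k hk
    apply Polynomial.eq_zero_of_infinite_isRoot
    refine Set.Infinite.mono (s := Sᶜ) ?_ hS.infinite_compl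
    intro ε hε
    have h3 := Polynomial.natDegree_le_iff_coeff_eq_zero.1 (h ε hε) k hk
    rw [← h1, Polynomial.coeff_map] at h3
    exact h3
  rw [Polynomial.natDegree_le_iff_coeff_eq_zero]
  intro k hk
  rw [← h1, Polynomial.coeff_map, h2 k hk, map_zero]

end Pool.Agent.Helper56.EC
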