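import Pool.Agent.Helper56.EC.DEG0

/-! # Module RA -/

open MvPolynomial
open Pool.Agent.Helper75.EC

universe w

namespace Pool.Agent.Helper56.EC

variable {K : Type*} [Field K] {N : ℕ}

/-- scaling the triples -/
theorem Inv_scale_triples {t : Fin N → K} {δ : Fin N → ℕ} {a b : ℕ}
    {f : MvPolynomial (Fin N × Fin 3) K} (hf : Inv t δ a b f) (x y z l : Fin N → K) :
    eval (trip (fun i => l i * x i) (fun i => l i * y i) (fun i => l i * z i)) f =
      (∏ i, l i ^ δ i) * eval (trip x y z) f := by
  refine eval_scale f x y z _ _ _ _ fun d hd => ?_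
  unfold mon
  rw [← Finset.prod_mul_distrib]
  refine Finset.prod_congr rfl fun i _ => ?_
  rw [← hf.degi d hd i]
  simp only [mul_pow, pow_add]
  ring

/-- many poles -/
theorem RA_poles (hDA : ST_DA.{w}) (hDIAG : ST_DIAG.{w}) {K : Type w} [Field K] [Infinite K]
    {N : ℕ} {t : Fin N → K} {δ : Fin N → ℕ} {a b W : ℕ}
    {f : MvPolynomial (Fin N × Fin 3) K} (hf : Inv t δ a b f) (hW : ∑ i, δ i = 2 * a + b + W)
    (y : Fin N → K) {ι : Type*} (S : Finset ι) (c ρ ρ' : ι → K)
    (hc : ∀ k ∈ S, ∀ i, t i ≠ c k) : ∀ x z : Fin N → K,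
    (pth f (trip x y z) (trip (fun i => (∑ k ∈ S, ρ k / (t i - c k)) * y i) 0
      (fun i => (∑ k ∈ S, ρ' k / (t i - c k)) * y i))).natDegree ≤ S.card * W := by
  classical
  induction S using Finset.induction_on with
  | empty =>
    intro x z
    have h0 : trip (fun i => (∑ k ∈ (∅ : Finset ι), ρ k / (t i - c k)) * y i) 0
      (fun i => (∑ k ∈ (∅ : Finset ι), ρ' k / (t i - c k)) * y i) = 0 := by
      funext q
      obtain ⟨i, k⟩ := q
      fin_cases k
      · change (∑ k ∈ (∅ : Finset ι), ρ k / (t i - c k)) * y i = 0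
        simp
      · rfl
      · change (∑ k ∈ (∅ : Finset ι), ρ' k / (t i - c k)) * y i = 0
        simp
    rw [h0, pth_zero_dir]
    exact Nat.zero_le _
  | insert k S hk ih =>
    intro x z
    have ih' := ih (fun k hk' => hc k (Finset.mem_insert_of_mem hk'))
    have h1 := hDIAG K (Fin N × Fin 3) f (trip x y z)
      (trip (fun i => (∑ k ∈ S, ρ k / (t i - c k)) * y i) 0
        (fun i => (∑ k ∈ S, ρ' k / (t i - c k)) * y i))
      (trip (fun i => ρ k * y i / (t i - c k)) 0 (fun i => ρ' k * y i / (t i - c k)))
      (S.card * W) W ?_ ?_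
    · rw [Finset.card_insert_of_notMem hk, Nat.add_mul, one_mul]
      have e : (fun s => trip (fun i => (∑ k ∈ S, ρ k / (t i - c k)) * y i) 0
          (fun i => (∑ k ∈ S, ρ' k / (t i - c k)) * y i) s +
          trip (fun i => ρ k * y i / (t i - c k)) 0 (fun i => ρ' k * y i / (t i - c k)) s) =
          trip (fun i => (∑ k ∈ insert k S, ρ k / (t i - c k)) * y i) 0
            (fun i => (∑ k ∈ insert k S, ρ' k / (t i - c k)) * y i) := by
        funext q
        obtain ⟨i, j⟩ := q
        fin_cases j
        · change (∑ k ∈ S, ρ k / (t i - c k)) * y i + ρ k * y i / (t i - c k) =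
            (∑ k ∈ insert k S, ρ k / (t i - c k)) * y i
          rw [Finset.sum_insert hk]
          ring
        · change (0 : K) + 0 = 0
          ring
        · change (∑ k ∈ S, ρ' k / (t i - c k)) * y i + ρ' k * y i / (t i - c k) =
            (∑ k ∈ insert k S, ρ' k / (t i - c k)) * y i
          rw [Finset.sum_insert hk]
          ring
      rw [e] at h1
      exact h1
    · intro η
      have e : (fun s => trip x y z s + η * trip (fun i => ρ k * y i / (t i - c k)) 0
          (fun i => ρ' k * y i / (t i - c k)) s) =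
          trip (fun i => x i + η * (ρ k * y i / (t i - c k))) y
            (fun i => z i + η * (ρ' k * y i / (t i - c k))) := by
        funext q
        obtain ⟨i, j⟩ := q
        fin_cases j
        · rfl
        · change y i + η * 0 = y i
          ring
        · rfl
      rw [e]
      exact ih' _ _
    · intro ξ
      have e : (fun s => trip x y z s + ξ * trip (fun i => (∑ k ∈ S, ρ k / (t i - c k)) * y i) 0
          (fun i => (∑ k ∈ S, ρ' k / (t i - c k)) * y i) s) =
          trip (fun i => x i + ξ * ((∑ k ∈ S, ρ k / (t i - c k)) * y i)) y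
            (fun i => z i + ξ * ((∑ k ∈ S, ρ' k / (t i - c k)) * y i)) := by
        funext q
        obtain ⟨i, j⟩ := q
        fin_cases j
        · rfl
        · change y i + ξ * 0 = y i
          ring
        · rfl
      rw [e]
      exact hDA K N t δ a b W f hf hW (c k) (hc k (Finset.mem_insert_self k S)) _ y _ (ρ k) (ρ' k)

/-- partial fractions -/
theorem RA_pf {K : Type*} [Field K] {q : ℕ} (c : Fin q → K) (hc : Function.Injective c) (l : K)
    (hl : l ≠ 0) (R : Polynomial K) (hR : R.degree < q) (s : K) (hs : ∀ k, s ≠ c k) :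
    R.eval s / (l * ∏ k, (s - c k)) =
      ∑ k, (l⁻¹ * Lagrange.nodalWeight Finset.univ c k * R.eval (c k)) / (s - c k) := by
  classical
  have h1 : R.degree < ((Finset.univ : Finset (Fin q)).card : WithBot ℕ) := by
    rw [Finset.card_univ, Fintype.card_fin]; exact hR
  have h2 := Lagrange.eq_interpolate (v := c) hc.injOn h1
  have h3 := Lagrange.eval_interpolate_not_at_node (s := Finset.univ) (v := c)
    (fun i => R.eval (c i)) (x := s) (fun i _ => hs i)
  rw [← h2, Lagrange.eval_nodal] at h3
  have h4 : ∏ k, (s - c k) ≠ 0 := Finset.prod_ne_zero_iff.2 fun k _ => sub_ne_zero.2 (hs k)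
  rw [h3]
  rw [mul_comm l, mul_div_mul_left _ _ h4, Finset.sum_div]
  refine Finset.sum_congr rfl fun k _ => ?_
  have := sub_ne_zero.2 (hs k)
  field_simp

/-- clearing denominators -/
theorem pth_clear [Infinite K] {t : Fin N → K} {δ : Fin N → ℕ} {a b : ℕ}
    {f : MvPolynomial (Fin N × Fin 3) K} (hf : Inv t δ a b f)
    (x y z A B C' l : Fin N → K) :
    pth f (trip (fun i => l i * x i) (fun i => l i * y i) (fun i => l i * z i))
      (trip (fun i => l i * A i) (fun i => l i * B i) (fun i => l i * C' i)) =
      Polynomial.C (∏ i, l i ^ δ i) * pth f (trip x y z) (trip A B C') := by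
  refine Polynomial.funext fun ξ => ?_
  rw [Polynomial.eval_mul, Polynomial.eval_C, pth_trip, pth_trip, ← Inv_scale_triples hf]
  congr 2
  funext q
  obtain ⟨i, j⟩ := q
  fin_cases j
  · change l i * x i + ξ * (l i * A i) = l i * (x i + ξ * A i)
    ring
  · change l i * y i + ξ * (l i * B i) = l i * (y i + ξ * B i)
    ring
  · change l i * z i + ξ * (l i * C' i) = l i * (z i + ξ * C' i)
    ring

/-- the roots as a finite family -/
theorem exists_roots {K : Type*} [Field K] [IsAlgClosed K] (P : Polynomial K) {q : ℕ}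
    (hP : P.natDegree = q) :
    ∃ c : Fin q → K, ∀ s, P.eval s = P.leadingCoeff * ∏ k, (s - c k) := by
  have h2 : Multiset.card P.roots = q := by
    rw [← hP]
    exact (IsAlgClosed.splits P).natDegree_eq_card_roots.symm
  obtain ⟨L, hL⟩ := Quotient.exists_rep P.roots
  have h3 : L.length = q := by
    rw [← h2, ← hL]; rfl
  subst h3
  refine ⟨fun k => L[k.1], fun s => ?_⟩
  rw [(IsAlgClosed.splits P).eval_eq_prod_roots s, ← hL]
  congr 1
  change (Multiset.map (fun x => s - x) (L : Multiset K)).prod = _
  rw [Multiset.map_coe, Multiset.prod_coe, ← Fin.prod_univ_fun_getElem]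

/-- perturbed poles: a finite set of bad parameters -/
theorem bad_finite {K : Type*} [Field K] {q N : ℕ} (c e : Fin q → K)
    (he : Function.Injective e) (t : Fin N → K) (ht : ∀ i k, t i ≠ c k) :
    ∃ S : Set K, S.Finite ∧ ∀ ε, ε ∉ S → Function.Injective (fun k => c k + ε * e k) ∧
      ∀ i k, t i ≠ c k + ε * e k := by
  refine ⟨(⋃ k, ⋃ l, {ε | k ≠ l ∧ c k + ε * e k = c l + ε * e l}) ∪
    (⋃ i, ⋃ k, {ε | t i = c k + ε * e k}), ?_, ?_⟩
  · refine Set.Finite.union (Set.finite_iUnion fun k => Set.finite_iUnion fun l => ?_)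
      (Set.finite_iUnion fun i => Set.finite_iUnion fun k => ?_)
    · refine Set.Subsingleton.finite ?_
      rintro ε ⟨hkl, h1⟩ ε' ⟨-, h2⟩
      have h3 : e k - e l ≠ 0 := sub_ne_zero.2 (fun h => hkl (he h))
      refine mul_right_cancel₀ h3 ?_
      linear_combination h1 - h2
    · refine Set.Subsingleton.finite ?_
      intro ε h1 ε' h2
      have h1' : t i = c k + ε * e k := h1
      have h2' : t i = c k + ε' * e k := h2
      by_cases h3 : e k = 0
      · rw [h3, mul_zero, add_zero] at h1'
        exact absurd h1' (ht i k)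
      · refine mul_right_cancel₀ h3 ?_
        linear_combination h2' - h1'
  · intro ε hε
    simp only [Set.mem_union, Set.mem_iUnion, Set.mem_ofPred_eq, not_or, not_exists] at hε
    refine ⟨?_, fun i k h => hε.2 i k h⟩
    intro k l hkl
    by_contra hne
    exact hε.1 k l ⟨hne, hkl⟩

theorem st_RA (hDA : ST_DA.{w}) (hDIAG : ST_DIAG.{w}) (hDENS : ST_DENS.{w}) : ST_RA.{w} := by
  intro K _ _ N t δ a b W f hf hW q P R R' hP hR hR' hPt x y z
  classical
  have hinf : Infinite K := IsAlgClosed.instInfinite
  by_cases hP0 : P = 0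
  · -- then N = 0 or contradiction
    subst hP0
    rcases Nat.eq_zero_or_pos N with hN | hN
    · subst hN
      have h0 : ∀ p : Fin 0 × Fin 3 → K, p = 0 := fun p => by
        funext s
        exact s.1.elim0
      rw [h0 (trip (fun i => R.eval (t i) / (0 : Polynomial K).eval (t i) * y i) 0
        (fun i => R'.eval (t i) / (0 : Polynomial K).eval (t i) * y i)), pth_zero_dir]
      exact Nat.zero_le _
    · exact absurd (by simp) (hPt ⟨0, hN⟩)
  · obtain ⟨c, hc⟩ := exists_roots P hP
    have hl : P.leadingCoeff ≠ 0 := Polynomial.leadingCoeff_ne_zero.2 hP0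
    have htc : ∀ i k, t i ≠ c k := by
      intro i k h
      apply hPt i
      rw [hc, Finset.prod_eq_zero (Finset.mem_univ k) (sub_eq_zero.2 h), mul_zero]
    set e : Fin q → K := fun k => Infinite.natEmbedding K k with he
    have hinj : Function.Injective e := fun k l h =>
      Fin.ext ((Infinite.natEmbedding K).injective h)
    obtain ⟨S, hS, hSε⟩ := bad_finite c e hinj t htc
    set PP : K → Polynomial K := fun s => Polynomial.C P.leadingCoeff *
      ∏ k, (Polynomial.C (s - c k) - Polynomial.X * Polynomial.C (e k)) with hPP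
    have hPPe : ∀ s ε, (PP s).eval ε = P.leadingCoeff * ∏ k, (s - (c k + ε * e k)) := by
      intro s ε
      simp only [hPP, Polynomial.eval_mul, Polynomial.eval_C, Polynomial.eval_prod,
        Polynomial.eval_sub, Polynomial.eval_X]
      congr 1
      exact Finset.prod_congr rfl fun k _ => by ring
    have e1 : ∀ ε : K, (fun s => (trip (fun i => PP (t i) * Polynomial.C (x i))
        (fun i => PP (t i) * Polynomial.C (y i)) (fun i => PP (t i) * Polynomial.C (z i)) s).eval ε)
        = trip (fun i => (PP (t i)).eval ε * x i) (fun i => (PP (t i)).eval ε * y i)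
          (fun i => (PP (t i)).eval ε * z i) := by
      intro ε
      funext s
      obtain ⟨i, j⟩ := s
      fin_cases j
      · change (PP (t i) * Polynomial.C (x i)).eval ε = (PP (t i)).eval ε * x i
        simp
      · change (PP (t i) * Polynomial.C (y i)).eval ε = (PP (t i)).eval ε * y i
        simp
      · change (PP (t i) * Polynomial.C (z i)).eval ε = (PP (t i)).eval ε * z i
        simp
    have e2 : ∀ ε : K, (fun s => (Polynomial.C (trip (fun i => R.eval (t i) * y i) 0
        (fun i => R'.eval (t i) * y i) s) : Polynomial K).eval ε) =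
        trip (fun i => R.eval (t i) * y i) 0 (fun i => R'.eval (t i) * y i) := by
      intro ε
      funext s
      simp
    have key := hDENS K (Fin N × Fin 3) f
      (trip (fun i => PP (t i) * Polynomial.C (x i)) (fun i => PP (t i) * Polynomial.C (y i))
        (fun i => PP (t i) * Polynomial.C (z i)))
      (fun s => Polynomial.C (trip (fun i => R.eval (t i) * y i) 0
        (fun i => R'.eval (t i) * y i) s)) (q * W) S hS ?_ 0
    · rw [e1, e2] at key
      have hP' : ∀ i, (PP (t i)).eval 0 = P.eval (t i) := by
        intro i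
        rw [hPPe, hc]
        simp
      simp only [hP'] at key
      have h1 := pth_clear hf x y z (fun i => R.eval (t i) / P.eval (t i) * y i) 0
        (fun i => R'.eval (t i) / P.eval (t i) * y i) (fun i => P.eval (t i))
      have e3 : (trip (fun i => P.eval (t i) * (R.eval (t i) / P.eval (t i) * y i))
          (fun i => P.eval (t i) * (0 : Fin N → K) i)
          (fun i => P.eval (t i) * (R'.eval (t i) / P.eval (t i) * y i))) =
          trip (fun i => R.eval (t i) * y i) 0 (fun i => R'.eval (t i) * y i) := by
        funext s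
        obtain ⟨i, j⟩ := s
        have := hPt i
        fin_cases j
        · change P.eval (t i) * (R.eval (t i) / P.eval (t i) * y i) = R.eval (t i) * y i
          field_simp
        · change P.eval (t i) * 0 = (0 : K)
          ring
        · change P.eval (t i) * (R'.eval (t i) / P.eval (t i) * y i) = R'.eval (t i) * y i
          field_simp
      rw [e3] at h1
      rw [h1, Polynomial.natDegree_C_mul] at key
      · exact key
      · exact Finset.prod_ne_zero_iff.2 fun i _ => pow_ne_zero _ (hPt i)
    · intro ε hε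
      rw [e1, e2]
      obtain ⟨hinjε, hne⟩ := hSε ε hε
      set cε : Fin q → K := fun k => c k + ε * e k with hcε
      set ρ : Fin q → K := fun k => P.leadingCoeff⁻¹ *
        Lagrange.nodalWeight Finset.univ cε k * R.eval (cε k) with hρ
      set ρ' : Fin q → K := fun k => P.leadingCoeff⁻¹ *
        Lagrange.nodalWeight Finset.univ cε k * R'.eval (cε k) with hρ'
      have h1 := RA_poles hDA hDIAG hf hW y (Finset.univ : Finset (Fin q)) cε ρ ρ'
        (fun k _ i => hne i k) x z
      rw [Finset.card_univ, Fintype.card_fin] at h1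
      have h2 := pth_clear hf x y z (fun i => (∑ k, ρ k / (t i - cε k)) * y i) 0
        (fun i => (∑ k, ρ' k / (t i - cε k)) * y i) (fun i => (PP (t i)).eval ε)
      have e3 : (trip (fun i => (PP (t i)).eval ε * ((∑ k, ρ k / (t i - cε k)) * y i))
          (fun i => (PP (t i)).eval ε * (0 : Fin N → K) i)
          (fun i => (PP (t i)).eval ε * ((∑ k, ρ' k / (t i - cε k)) * y i))) =
          trip (fun i => R.eval (t i) * y i) 0 (fun i => R'.eval (t i) * y i) := by
        funext s
        obtain ⟨i, j⟩ := s
        have h3 := RA_pf cε hinjε P.leadingCoeff hl R hR (t i) (hne i)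
        have h3' := RA_pf cε hinjε P.leadingCoeff hl R' hR' (t i) (hne i)
        have h4 : P.leadingCoeff * ∏ k, (t i - cε k) ≠ 0 :=
          mul_ne_zero hl (Finset.prod_ne_zero_iff.2 fun k _ => sub_ne_zero.2 (hne i k))
        fin_cases j
        · change (PP (t i)).eval ε * ((∑ k, ρ k / (t i - cε k)) * y i) = R.eval (t i) * y i
          rw [hPPe, ← h3, ← mul_assoc, mul_div_cancel₀ _ h4]
        · change (PP (t i)).eval ε * 0 = (0 : K)
          ring
        · change (PP (t i)).eval ε * ((∑ k, ρ' k / (t i - cε k)) * y i) = R'.eval (t i) * y i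
          rw [hPPe, ← h3', ← mul_assoc, mul_div_cancel₀ _ h4]
      rw [e3] at h2
      rw [h2]
      exact (Polynomial.natDegree_C_mul_le _ _).trans h1

end Pool.Agent.Helper56.EC
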